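import Pool.Agent.Helper12.VW.Defs

open Polynomial NumberField

namespace Pool.Agent.Helper12.VW

namespace F23

/-- A monic form has a zero modulo `p`. -/
theorem one_le_nroots {n p : ℕ} [Fact p.Prime] (hn : 1 ≤ n) (v : Fin (n + 1) → ZMod p)
    (hv : v (Fin.last n) = 1) : 1 ≤ nroots v := by
  have hp1 : (1 : ZMod p) ≠ 0 := one_ne_zero
  have hdeg : (toPoly v).natDegree ≠ 0 := by
    have hc : (toPoly v).coeff n = 1 := by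
      unfold toPoly
      rw [Polynomial.finsetSum_coeff]
      rw [Finset.sum_eq_single (Fin.last n)]
      · rw [hv]; simp
      · intro i _ hi
        have : (i : ℕ) ≠ n := fun h => hi (Fin.ext (by simpa using h))
        simp [Polynomial.coeff_X_pow, this.symm]
      · intro h; exact absurd (Finset.mem_univ _) h
    have h1 : n ≤ (toPoly v).natDegree := Polynomial.le_natDegree_of_ne_zero (by rw [hc]; exact hp1)
    omega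
  have hne : toPoly v ≠ 0 := by
    intro h; rw [h] at hdeg; simp at hdeg
  obtain ⟨x, hx⟩ := IsAlgClosed.exists_aeval_eq_zero (AlgebraicClosure (ZMod p)) (toPoly v) (by
    rw [Ne, Polynomial.degree_eq_natDegree hne]
    exact_mod_cast hdeg)
  have hmem : x ∈ (toPoly v).rootSet (AlgebraicClosure (ZMod p)) := by
    rw [Polynomial.mem_rootSet]; exact ⟨hne, hx⟩
  have hpos : 0 < ((toPoly v).rootSet (AlgebraicClosure (ZMod p))).ncard :=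
    (Set.ncard_pos (Polynomial.rootSet_finite _ _)).2 ⟨x, hmem⟩
  unfold nroots
  omega

theorem le_of_InInd {n : ℕ} (hn : 1 ≤ n) (b : Fin (n + 1) → ℤ) (hb : b (Fin.last n) = 1)
    (p k : ℕ) (h : InInd b p k) : k ≤ n - 1 := by
  obtain ⟨hp, h⟩ := h
  have : Fact p.Prime := ⟨hp⟩
  rcases h with h | h
  · have := congrFun h (Fin.last n)
    simp only [hb, Int.cast_one, Pi.zero_apply] at this
    exact absurd this one_ne_zero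
  · have h1 := one_le_nroots (p := p) hn (fun i => (b i : ZMod p)) (by simp [hb])
    omega

/-- The common part: a small polynomial with index conditions. -/
theorem common (k : ℕ) (hk : 2 ≤ k)
    (G2 : ∃ C : ℝ, 0 < C ∧
      ∀ (K : Type) [Field K] [NumberField K], Module.finrank ℚ K = k → IsPrim K →
      ∃ b : Fin (k + 1) → ℤ, b (Fin.last k) = 1 ∧ (∀ i : Fin (k + 1), (i : ℕ) + 1 = k →
          0 ≤ b i ∧ b i < k) ∧
        (∀ i : Fin (k + 1), |(b i : ℝ)| ≤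
          C * |(discr K : ℝ)| ^ (((k : ℝ) - (i : ℕ)) / (2 * ((k : ℝ) - 1)))) ∧
        Irreducible (ratPoly b) ∧ ∃ θ : K, aeval θ (ratPoly b) = 0)
    (A3 : ∃ c : ℕ, 0 < c ∧ ∀ (K : Type) [Field K] [NumberField K],
      Module.finrank ℚ K = k →
      (discr K).natAbs ≤ c * ∏ p ∈ (discr K).natAbs.primeFactors.filter (k < ·), p ^ vD K p)
    (A4 : ∀ (a : Fin (k + 1) → ℤ), a (Fin.last k) ≠ 0 →
      Irreducible (ratPoly a) → ∀ (K : Type) [Field K] [NumberField K],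
      Module.finrank ℚ K = k → ∀ (θ : K), aeval θ (ratPoly a) = 0 →
      ∀ (p : ℕ), p.Prime → k < p → InInd a p (vD K p)) :
    ∃ c₀ : ℝ, 1 ≤ c₀ ∧ ∀ X : ℝ, 1 ≤ X →
      ∀ (L : Type) [Field L] [NumberField L], Module.finrank ℚ L = k → IsPrim L →
        (∀ p : ℕ, p.Prime → vD L p ≠ 1) →
        X ≤ |(discr L : ℝ)| → |(discr L : ℝ)| ≤ 2 * X →
        ∃ b : Fin (k + 1) → ℤ, b (Fin.last k) = 1 ∧ (∀ i : Fin (k + 1), (i : ℕ) + 1 = k →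
            0 ≤ b i ∧ b i < k) ∧
          (∀ i : Fin (k + 1), |(b i : ℝ)| ≤
            c₀ * X ^ (((k : ℝ) - (i : ℕ)) / (2 * ((k : ℝ) - 1)))) ∧
          Irreducible (ratPoly b) ∧ (∃ θ : L, aeval θ (ratPoly b) = 0) ∧
          ∃ (P : Finset ℕ) (v : ℕ → ℕ), (∀ p ∈ P, p.Prime ∧ k < p ∧ 2 ≤ v p ∧ v p ≤ k - 1 ∧
            InInd b p (v p)) ∧ X ≤ c₀ * ∏ p ∈ P, (p : ℝ) ^ v p ∧
            ∏ p ∈ P, (p : ℝ) ^ v p ≤ c₀ * X := by
  obtain ⟨C, hC, hG⟩ := G2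
  obtain ⟨c, hc, hA⟩ := A3
  have hc' : (0 : ℝ) < c := by exact_mod_cast hc
  refine ⟨2 * C + c + 2, by linarith, ?_⟩
  intro X hX L _ _ hL hP hv1 hXD hDX
  have hX0 : 0 < X := by linarith
  obtain ⟨b, hb1, hb2, hb3, hirr, θ, hθ⟩ := hG L hL hP
  have hD0 : (discr L).natAbs ≠ 0 := Int.natAbs_ne_zero.2 (discr_ne_zero L)
  have hDabs : |(discr L : ℝ)| = ((discr L).natAbs : ℝ) := by
    rw [Nat.cast_natAbs]; push_cast; rfl
  refine ⟨b, hb1, hb2, ?_, hirr, ⟨θ, hθ⟩, (discr L).natAbs.primeFactors.filter (k < ·), vD L,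
    ?_, ?_, ?_⟩
  · intro i
    refine (hb3 i).trans ?_
    have hk2 : (2 : ℝ) ≤ k := by exact_mod_cast hk
    have hk1 : (0 : ℝ) < 2 * ((k : ℝ) - 1) := by linarith
    have hi : ((i : ℕ) : ℝ) ≤ k := by
      have := i.2
      exact_mod_cast Nat.lt_succ_iff.1 this
    set α := ((k : ℝ) - (i : ℕ)) / (2 * ((k : ℝ) - 1)) with hα
    have hα0 : 0 ≤ α := div_nonneg (by linarith) hk1.le
    have hα1 : α ≤ 1 := by
      rw [hα, div_le_one hk1]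
      have : (0 : ℝ) ≤ ((i : ℕ) : ℝ) := Nat.cast_nonneg _
      linarith
    have h1 : |(discr L : ℝ)| ^ α ≤ 2 * X ^ α := by
      calc |(discr L : ℝ)| ^ α ≤ (2 * X) ^ α := Real.rpow_le_rpow (abs_nonneg _) hDX hα0
        _ = 2 ^ α * X ^ α := Real.mul_rpow (by norm_num) hX0.le
        _ ≤ 2 * X ^ α := by
          apply mul_le_mul_of_nonneg_right _ (by positivity)
          calc (2 : ℝ) ^ α ≤ 2 ^ (1 : ℝ) := Real.rpow_le_rpow_of_exponent_le (by norm_num) hα1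
            _ = 2 := Real.rpow_one 2
    have hXα : 0 < X ^ α := Real.rpow_pos_of_pos hX0 _
    calc C * |(discr L : ℝ)| ^ α ≤ C * (2 * X ^ α) := mul_le_mul_of_nonneg_left h1 hC.le
      _ = 2 * C * X ^ α := by ring
      _ ≤ (2 * C + c + 2) * X ^ α := by
        apply mul_le_mul_of_nonneg_right _ hXα.le
        linarith
  · intro p hp
    rw [Finset.mem_filter, Nat.mem_primeFactors] at hp
    obtain ⟨⟨hpp, hpd, -⟩, hkp⟩ := hp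
    have hI := A4 b (by rw [hb1]; norm_num) hirr L hL θ hθ p hpp hkp
    refine ⟨hpp, hkp, ?_, le_of_InInd (by omega) b hb1 p _ hI, hI⟩
    have h1 : vD L p ≠ 1 := hv1 p hpp
    have h2 : 0 < vD L p := by
      unfold vD
      exact hpp.factorization_pos_of_dvd hD0 hpd
    omega
  · have h1 : ((discr L).natAbs : ℝ) ≤
        c * ∏ p ∈ (discr L).natAbs.primeFactors.filter (k < ·), (p : ℝ) ^ vD L p := by
      have := hA L hL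
      exact_mod_cast this
    rw [hDabs] at hXD
    have hpos : 0 < ∏ p ∈ (discr L).natAbs.primeFactors.filter (k < ·), (p : ℝ) ^ vD L p := by
      apply Finset.prod_pos
      intro p hp
      rw [Finset.mem_filter, Nat.mem_primeFactors] at hp
      have : 0 < p := hp.1.1.pos
      positivity
    calc X ≤ _ := hXD
      _ ≤ _ := h1
      _ ≤ _ := by
        apply mul_le_mul_of_nonneg_right _ hpos.le
        linarith
  · have h1 : ∏ p ∈ (discr L).natAbs.primeFactors.filter (k < ·), (p : ℝ) ^ vD L p ≤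
        ((discr L).natAbs : ℝ) := by
      have h2 : ∏ p ∈ (discr L).natAbs.primeFactors.filter (k < ·), p ^ vD L p ∣
          (discr L).natAbs := by
        calc ∏ p ∈ (discr L).natAbs.primeFactors.filter (k < ·), p ^ vD L p
            ∣ ∏ p ∈ (discr L).natAbs.primeFactors, p ^ vD L p :=
              Finset.prod_dvd_prod_of_subset _ _ _ (Finset.filter_subset _ _)
          _ = (discr L).natAbs := Nat.prod_factorization_pow_eq_self hD0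
      have h3 := Nat.le_of_dvd (Nat.pos_of_ne_zero hD0) h2
      exact_mod_cast h3
    rw [hDabs] at hDX
    refine h1.trans (hDX.trans ?_)
    apply mul_le_mul_of_nonneg_right _ hX0.le
    linarith

/-- Integer vectors with bounded entries form a finite set. -/
theorem finite_box {k : ℕ} (R : ℝ) (s : Set (Fin (k + 1) → ℤ)) (hs : ∀ b ∈ s, ∀ i, |(b i : ℝ)| ≤ R) :
    s.Finite := by
  refine ((Fintype.piFinset fun _ : Fin (k + 1) => Finset.Icc (-⌈R⌉) ⌈R⌉).finite_toSet).subset ?_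
  intro b hb
  rw [Finset.mem_coe, Fintype.mem_piFinset]
  intro i
  have h1 := hs b hb i
  have h2 := Int.le_ceil R
  rw [Finset.mem_Icc]
  rw [abs_le] at h1
  constructor
  · have : (((-⌈R⌉ : ℤ)) : ℝ) ≤ (b i : ℝ) := by push_cast; linarith
    exact_mod_cast this
  · have : (b i : ℝ) ≤ ((⌈R⌉ : ℤ) : ℝ) := by linarith
    exact_mod_cast this

theorem field_cover4_of
    (G2 : ∃ C : ℝ, 0 < C ∧
      ∀ (K : Type) [Field K] [NumberField K], Module.finrank ℚ K = 4 → IsPrim K →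
      ∃ b : Fin (4 + 1) → ℤ, b (Fin.last 4) = 1 ∧ (∀ i : Fin (4 + 1), (i : ℕ) + 1 = 4 →
          0 ≤ b i ∧ b i < (4 : ℕ)) ∧
        (∀ i : Fin (4 + 1), |(b i : ℝ)| ≤
          C * |(discr K : ℝ)| ^ ((((4 : ℕ) : ℝ) - (i : ℕ)) / (2 * (((4 : ℕ) : ℝ) - 1)))) ∧
        Irreducible (ratPoly b) ∧ ∃ θ : K, aeval θ (ratPoly b) = 0)
    (A3 : ∃ c : ℕ, 0 < c ∧ ∀ (K : Type) [Field K] [NumberField K],
      Module.finrank ℚ K = 4 →
      (discr K).natAbs ≤ c * ∏ p ∈ (discr K).natAbs.primeFactors.filter (4 < ·), p ^ vD K p)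
    (A4 : ∀ (a : Fin (4 + 1) → ℤ), a (Fin.last 4) ≠ 0 →
      Irreducible (ratPoly a) → ∀ (K : Type) [Field K] [NumberField K],
      Module.finrank ℚ K = 4 → ∀ (θ : K), aeval θ (ratPoly a) = 0 →
      ∀ (p : ℕ), p.Prime → 4 < p → InInd a p (vD K p))
    (ε : ℝ)
    (R4 : ∀ c₀ : ℝ, 1 ≤ c₀ → ∃ C : ℝ, 0 < C ∧ ∀ X : ℝ, 1 ≤ X →
      ∀ T : Finset (Fin 5 → ℤ), (∀ b ∈ T, b 4 = 1 ∧ 0 ≤ b 3 ∧ b 3 < 4 ∧
      |(b 2 : ℝ)| ≤ c₀ * X ^ (1 / 3 : ℝ) ∧ |(b 1 : ℝ)| ≤ c₀ * X ^ (1 / 2 : ℝ) ∧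
      |(b 0 : ℝ)| ≤ c₀ * X ^ (2 / 3 : ℝ) ∧
      ∃ (P : Finset ℕ) (v : ℕ → ℕ), (∀ p ∈ P, p.Prime ∧ 4 < p ∧ 2 ≤ v p ∧ v p ≤ 3 ∧
        InInd (n := 4) b p (v p)) ∧ X ≤ c₀ * ∏ p ∈ P, (p : ℝ) ^ v p ∧
        ∏ p ∈ P, (p : ℝ) ^ v p ≤ c₀ * X) →
      (T.card : ℝ) ≤ C * X ^ (1 + ε)) :
    ∃ C : ℝ, 0 < C ∧ ∀ X : ℝ, 1 ≤ X →
    ∃ T : Finset (Fin (4 + 1) → ℤ), (T.card : ℝ) ≤ C * X ^ (1 + ε) ∧
      ∀ (L : Type) [Field L] [NumberField L], Module.finrank ℚ L = 4 → IsPrim L →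
        (∀ p : ℕ, p.Prime → vD L p ≠ 1) →
        X ≤ |(discr L : ℝ)| → |(discr L : ℝ)| ≤ 2 * X →
        ∃ b ∈ T, Irreducible (ratPoly b) ∧ b (Fin.last 4) = 1 ∧
          ∃ θ : L, aeval θ (ratPoly b) = 0 := by
  obtain ⟨c₀, hc₀, hcom⟩ := common 4 (by norm_num) G2 A3 A4
  obtain ⟨C, hC, hR⟩ := R4 c₀ hc₀
  refine ⟨C, hC, fun X hX => ?_⟩
  have hX0 : 0 < X := by linarith
  set s : Set (Fin (4 + 1) → ℤ) := {b | b 4 = 1 ∧ 0 ≤ b 3 ∧ b 3 < 4 ∧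
      |(b 2 : ℝ)| ≤ c₀ * X ^ (1 / 3 : ℝ) ∧ |(b 1 : ℝ)| ≤ c₀ * X ^ (1 / 2 : ℝ) ∧
      |(b 0 : ℝ)| ≤ c₀ * X ^ (2 / 3 : ℝ) ∧
      ∃ (P : Finset ℕ) (v : ℕ → ℕ), (∀ p ∈ P, p.Prime ∧ 4 < p ∧ 2 ≤ v p ∧ v p ≤ 3 ∧
        InInd (n := 4) b p (v p)) ∧ X ≤ c₀ * ∏ p ∈ P, (p : ℝ) ^ v p ∧
        ∏ p ∈ P, (p : ℝ) ^ v p ≤ c₀ * X} with hs
  have hfin : s.Finite := by
    have hp1 : 0 < X ^ (1 / 3 : ℝ) := Real.rpow_pos_of_pos hX0 _
    have hp2 : 0 < X ^ (1 / 2 : ℝ) := Real.rpow_pos_of_pos hX0 _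
    have hp3 : 0 < X ^ (2 / 3 : ℝ) := Real.rpow_pos_of_pos hX0 _
    have hc₀0 : 0 < c₀ := by linarith
    refine finite_box (4 + c₀ * X ^ (1 / 3 : ℝ) + c₀ * X ^ (1 / 2 : ℝ) + c₀ * X ^ (2 / 3 : ℝ)) s ?_
    rintro b ⟨b4, b3, b3', b2, b1, b0, -⟩ i
    have q1 : 0 < c₀ * X ^ (1 / 3 : ℝ) := by positivity
    have q2 : 0 < c₀ * X ^ (1 / 2 : ℝ) := by positivity
    have q3 : 0 < c₀ * X ^ (2 / 3 : ℝ) := by positivity
    fin_cases i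
    · show |((b 0 : ℤ) : ℝ)| ≤ _
      linarith
    · show |((b 1 : ℤ) : ℝ)| ≤ _
      linarith
    · show |((b 2 : ℤ) : ℝ)| ≤ _
      linarith
    · show |((b 3 : ℤ) : ℝ)| ≤ _
      have h1 : |((b 3 : ℤ) : ℝ)| ≤ 4 := by
        rw [abs_le]
        constructor
        · have : (0 : ℝ) ≤ ((b 3 : ℤ) : ℝ) := by exact_mod_cast b3
          linarith
        · exact_mod_cast b3'.le
      linarith
    · show |((b 4 : ℤ) : ℝ)| ≤ _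
      rw [b4]
      norm_num
      linarith
  refine ⟨hfin.toFinset, ?_, ?_⟩
  · apply hR X hX
    intro b hb
    rw [Set.Finite.mem_toFinset] at hb
    exact hb
  · intro L _ _ hL hP hv hXD hDX
    obtain ⟨b, hb1, hb2, hb3, hirr, hθ, P, v, hPv, h1, h2⟩ := hcom X hX L hL hP hv hXD hDX
    refine ⟨b, ?_, hirr, hb1, hθ⟩
    rw [Set.Finite.mem_toFinset]
    refine ⟨hb1, (hb2 3 (by decide)).1, by exact_mod_cast (hb2 3 (by decide)).2, ?_, ?_, ?_, P, v, ?_, h1, h2⟩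
    · have := hb3 2
      have e : (((4 : ℕ) : ℝ) - ((2 : Fin 5) : ℕ)) / (2 * (((4 : ℕ) : ℝ) - 1)) = 1 / 3 := by
        norm_num
      rwa [e] at this
    · have := hb3 1
      have e : (((4 : ℕ) : ℝ) - ((1 : Fin 5) : ℕ)) / (2 * (((4 : ℕ) : ℝ) - 1)) = 1 / 2 := by
        norm_num
      rwa [e] at this
    · have := hb3 0
      have e : (((4 : ℕ) : ℝ) - ((0 : Fin 5) : ℕ)) / (2 * (((4 : ℕ) : ℝ) - 1)) = 2 / 3 := by
        norm_num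
      rwa [e] at this
    · intro p hp
      obtain ⟨q1, q2, q3, q4, q5⟩ := hPv p hp
      exact ⟨q1, q2, q3, by omega, q5⟩

theorem field_cover5_of
    (G2 : ∃ C : ℝ, 0 < C ∧
      ∀ (K : Type) [Field K] [NumberField K], Module.finrank ℚ K = 5 → IsPrim K →
      ∃ b : Fin (5 + 1) → ℤ, b (Fin.last 5) = 1 ∧ (∀ i : Fin (5 + 1), (i : ℕ) + 1 = 5 →
          0 ≤ b i ∧ b i < (5 : ℕ)) ∧
        (∀ i : Fin (5 + 1), |(b i : ℝ)| ≤
          C * |(discr K : ℝ)| ^ ((((5 : ℕ) : ℝ) - (i : ℕ)) / (2 * (((5 : ℕ) : ℝ) - 1)))) ∧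
        Irreducible (ratPoly b) ∧ ∃ θ : K, aeval θ (ratPoly b) = 0)
    (A3 : ∃ c : ℕ, 0 < c ∧ ∀ (K : Type) [Field K] [NumberField K],
      Module.finrank ℚ K = 5 →
      (discr K).natAbs ≤ c * ∏ p ∈ (discr K).natAbs.primeFactors.filter (5 < ·), p ^ vD K p)
    (A4 : ∀ (a : Fin (5 + 1) → ℤ), a (Fin.last 5) ≠ 0 →
      Irreducible (ratPoly a) → ∀ (K : Type) [Field K] [NumberField K],
      Module.finrank ℚ K = 5 → ∀ (θ : K), aeval θ (ratPoly a) = 0 →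
      ∀ (p : ℕ), p.Prime → 5 < p → InInd a p (vD K p))
    (ε : ℝ)
    (R5 : ∀ c₀ : ℝ, 1 ≤ c₀ → ∃ C : ℝ, 0 < C ∧ ∀ X : ℝ, 1 ≤ X →
      ∀ T : Finset (Fin 6 → ℤ), (∀ b ∈ T, b 5 = 1 ∧ 0 ≤ b 4 ∧ b 4 < 5 ∧
      |(b 3 : ℝ)| ≤ c₀ * X ^ (1 / 4 : ℝ) ∧ |(b 2 : ℝ)| ≤ c₀ * X ^ (3 / 8 : ℝ) ∧
      |(b 1 : ℝ)| ≤ c₀ * X ^ (1 / 2 : ℝ) ∧ |(b 0 : ℝ)| ≤ c₀ * X ^ (5 / 8 : ℝ) ∧
      ∃ (P : Finset ℕ) (v : ℕ → ℕ), (∀ p ∈ P, p.Prime ∧ 5 < p ∧ 2 ≤ v p ∧ v p ≤ 4 ∧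
        InInd (n := 5) b p (v p)) ∧ X ≤ c₀ * ∏ p ∈ P, (p : ℝ) ^ v p ∧
        ∏ p ∈ P, (p : ℝ) ^ v p ≤ c₀ * X) →
      (T.card : ℝ) ≤ C * X ^ (3 / 2 + ε : ℝ)) :
    ∃ C : ℝ, 0 < C ∧ ∀ X : ℝ, 1 ≤ X →
    ∃ T : Finset (Fin (5 + 1) → ℤ), (T.card : ℝ) ≤ C * X ^ (3 / 2 + ε : ℝ) ∧
      ∀ (L : Type) [Field L] [NumberField L], Module.finrank ℚ L = 5 → IsPrim L →
        (∀ p : ℕ, p.Prime → vD L p ≠ 1) →
        X ≤ |(discr L : ℝ)| → |(discr L : ℝ)| ≤ 2 * X →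
        ∃ b ∈ T, Irreducible (ratPoly b) ∧ b (Fin.last 5) = 1 ∧
          ∃ θ : L, aeval θ (ratPoly b) = 0 := by
  obtain ⟨c₀, hc₀, hcom⟩ := common 5 (by norm_num) G2 A3 A4
  obtain ⟨C, hC, hR⟩ := R5 c₀ hc₀
  refine ⟨C, hC, fun X hX => ?_⟩
  have hX0 : 0 < X := by linarith
  set s : Set (Fin (5 + 1) → ℤ) := {b | b 5 = 1 ∧ 0 ≤ b 4 ∧ b 4 < 5 ∧
      |(b 3 : ℝ)| ≤ c₀ * X ^ (1 / 4 : ℝ) ∧ |(b 2 : ℝ)| ≤ c₀ * X ^ (3 / 8 : ℝ) ∧
      |(b 1 : ℝ)| ≤ c₀ * X ^ (1 / 2 : ℝ) ∧ |(b 0 : ℝ)| ≤ c₀ * X ^ (5 / 8 : ℝ) ∧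
      ∃ (P : Finset ℕ) (v : ℕ → ℕ), (∀ p ∈ P, p.Prime ∧ 5 < p ∧ 2 ≤ v p ∧ v p ≤ 4 ∧
        InInd (n := 5) b p (v p)) ∧ X ≤ c₀ * ∏ p ∈ P, (p : ℝ) ^ v p ∧
        ∏ p ∈ P, (p : ℝ) ^ v p ≤ c₀ * X} with hs
  have hfin : s.Finite := by
    have hp0 : 0 < X ^ (1 / 4 : ℝ) := Real.rpow_pos_of_pos hX0 _
    have hp1 : 0 < X ^ (3 / 8 : ℝ) := Real.rpow_pos_of_pos hX0 _
    have hp2 : 0 < X ^ (1 / 2 : ℝ) := Real.rpow_pos_of_pos hX0 _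
    have hp3 : 0 < X ^ (5 / 8 : ℝ) := Real.rpow_pos_of_pos hX0 _
    have hc₀0 : 0 < c₀ := by linarith
    refine finite_box (5 + c₀ * X ^ (1 / 4 : ℝ) + c₀ * X ^ (3 / 8 : ℝ) + c₀ * X ^ (1 / 2 : ℝ) +
      c₀ * X ^ (5 / 8 : ℝ)) s ?_
    rintro b ⟨b5, b4, b4', b3, b2, b1, b0, -⟩ i
    have q0 : 0 < c₀ * X ^ (1 / 4 : ℝ) := by positivity
    have q1 : 0 < c₀ * X ^ (3 / 8 : ℝ) := by positivity
    have q2 : 0 < c₀ * X ^ (1 / 2 : ℝ) := by positivity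
    have q3 : 0 < c₀ * X ^ (5 / 8 : ℝ) := by positivity
    fin_cases i
    · show |((b 0 : ℤ) : ℝ)| ≤ _
      linarith
    · show |((b 1 : ℤ) : ℝ)| ≤ _
      linarith
    · show |((b 2 : ℤ) : ℝ)| ≤ _
      linarith
    · show |((b 3 : ℤ) : ℝ)| ≤ _
      linarith
    · show |((b 4 : ℤ) : ℝ)| ≤ _
      have h1 : |((b 4 : ℤ) : ℝ)| ≤ 5 := by
        rw [abs_le]
        constructor
        · have : (0 : ℝ) ≤ ((b 4 : ℤ) : ℝ) := by exact_mod_cast b4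
          linarith
        · exact_mod_cast b4'.le
      linarith
    · show |((b 5 : ℤ) : ℝ)| ≤ _
      rw [b5]
      norm_num
      linarith
  refine ⟨hfin.toFinset, ?_, ?_⟩
  · apply hR X hX
    intro b hb
    rw [Set.Finite.mem_toFinset] at hb
    exact hb
  · intro L _ _ hL hP hv hXD hDX
    obtain ⟨b, hb1, hb2, hb3, hirr, hθ, P, v, hPv, h1, h2⟩ := hcom X hX L hL hP hv hXD hDX
    refine ⟨b, ?_, hirr, hb1, hθ⟩
    rw [Set.Finite.mem_toFinset]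
    refine ⟨hb1, (hb2 4 (by decide)).1, by exact_mod_cast (hb2 4 (by decide)).2, ?_, ?_, ?_, ?_,
      P, v, ?_, h1, h2⟩
    · have := hb3 3
      have e : (((5 : ℕ) : ℝ) - ((3 : Fin 6) : ℕ)) / (2 * (((5 : ℕ) : ℝ) - 1)) = 1 / 4 := by
        norm_num
      rwa [e] at this
    · have := hb3 2
      have e : (((5 : ℕ) : ℝ) - ((2 : Fin 6) : ℕ)) / (2 * (((5 : ℕ) : ℝ) - 1)) = 3 / 8 := by
        norm_num
      rwa [e] at this
    · have := hb3 1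
      have e : (((5 : ℕ) : ℝ) - ((1 : Fin 6) : ℕ)) / (2 * (((5 : ℕ) : ℝ) - 1)) = 1 / 2 := by
        norm_num
      rwa [e] at this
    · have := hb3 0
      have e : (((5 : ℕ) : ℝ) - ((0 : Fin 6) : ℕ)) / (2 * (((5 : ℕ) : ℝ) - 1)) = 5 / 8 := by
        norm_num
      rwa [e] at this
    · intro p hp
      obtain ⟨q1, q2, q3, q4, q5⟩ := hPv p hp
      exact ⟨q1, q2, q3, by omega, q5⟩

end F23

end Pool.Agent.Helper12.VW
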