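import Pool.Agent.Helper63.VW.G6

open Polynomial NumberField

namespace Pool.Agent.Helper12.VW

namespace G7

variable {L : Type} [Field L] [NumberField L]

/-- `z` lies in the inverse of `J`. -/
def InInv (J : Ideal (𝓞 L)) (z : L) : Prop := ∀ y ∈ J, ∃ x : 𝓞 L, (y : L) * z = x

theorem InInv.sub {J : Ideal (𝓞 L)} {z z' : L} (h : InInv J z) (h' : InInv J z') :
    InInv J (z - z') := by
  intro y hy
  obtain ⟨x, hx⟩ := h y hy
  obtain ⟨x', hx'⟩ := h' y hy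
  refine ⟨x - x', ?_⟩
  rw [mul_sub, hx, hx']; simp

theorem prod_norm_eq (w : L) : ∏ τ : L →+* ℂ, ‖τ w‖ = |((Algebra.norm ℚ w : ℚ) : ℝ)| := by
  have h := Algebra.norm_eq_prod_embeddings ℚ ℂ w
  have h2 : ‖(algebraMap ℚ ℂ) (Algebra.norm ℚ w)‖ = |((Algebra.norm ℚ w : ℚ) : ℝ)| := by
    have e : (algebraMap ℚ ℂ) (Algebra.norm ℚ w) = (((Algebra.norm ℚ w : ℚ) : ℝ) : ℂ) := by simp
    rw [e, Complex.norm_real, Real.norm_eq_abs]
  rw [← h2, h, norm_prod]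
  exact Fintype.prod_equiv (RingHom.equivRatAlgHom L ℂ) (fun f => ‖f w‖)
      (fun φ => ‖φ w‖) fun _ => by simp [RingHom.equivRatAlgHom_apply]

open nonZeroDivisors in
theorem one_le_norm (J : Ideal (𝓞 L)) (hJ : J ≠ ⊥) (w : L) (hw : w ≠ 0) (h : InInv J w) :
    1 ≤ (∏ τ : L →+* ℂ, ‖τ w‖) * J.absNorm := by
  have hF : FractionalIdeal.spanSingleton (𝓞 L)⁰ w * (J : FractionalIdeal (𝓞 L)⁰ L) ≤ 1 := by
    rw [FractionalIdeal.spanSingleton_mul_le_iff]
    intro z hz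
    rw [FractionalIdeal.mem_coeIdeal] at hz
    obtain ⟨y, hy, rfl⟩ := hz
    rw [FractionalIdeal.mem_one_iff]
    obtain ⟨x, hx⟩ := h y hy
    exact ⟨x, by rw [mul_comm]; exact hx.symm⟩
  obtain ⟨I, hI⟩ := FractionalIdeal.le_one_iff_exists_coeIdeal.1 hF
  have h1 : FractionalIdeal.absNorm (FractionalIdeal.spanSingleton (𝓞 L)⁰ w *
      (J : FractionalIdeal (𝓞 L)⁰ L)) = |Algebra.norm ℚ w| * (J.absNorm : ℚ) := by
    rw [map_mul, FractionalIdeal.absNorm_span_singleton, FractionalIdeal.coeIdeal_absNorm]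
  rw [← hI, FractionalIdeal.coeIdeal_absNorm] at h1
  have hJ0 : J.absNorm ≠ 0 := by
    rw [Ne, Ideal.absNorm_eq_zero_iff]; exact hJ
  have hN0 : Algebra.norm ℚ w ≠ 0 := by
    rw [Ne, Algebra.norm_eq_zero_iff]; exact hw
  have hI0 : I.absNorm ≠ 0 := by
    intro h0
    rw [h0, Nat.cast_zero] at h1
    have h2 : |Algebra.norm ℚ w| * (J.absNorm : ℚ) ≠ 0 :=
      mul_ne_zero (abs_ne_zero.2 hN0) (Nat.cast_ne_zero.2 hJ0)
    exact h2 h1.symm
  have h3 : (1 : ℚ) ≤ |Algebra.norm ℚ w| * (J.absNorm : ℚ) := by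
    rw [← h1]
    exact_mod_cast Nat.one_le_iff_ne_zero.2 hI0
  rw [prod_norm_eq]
  exact_mod_cast h3

/-- The real linear form `Re + Im`. -/
noncomputable def xi (τ : L →+* ℂ) (z : L) : ℝ := (τ z).re + (τ z).im

theorem xi_sub (τ : L →+* ℂ) (z z' : L) : xi τ (z - z') = xi τ z - xi τ z' := by
  unfold xi; rw [map_sub]; simp; ring

theorem xi_conj (τ : L →+* ℂ) (z : L) :
    xi (ComplexEmbedding.conjugate τ) z = (τ z).re - (τ z).im := by
  unfold xi; simp [ComplexEmbedding.conjugate_coe_eq]; ring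

theorem abs_xi_le (τ : L →+* ℂ) (z : L) : |xi τ z| ≤ 2 * ‖τ z‖ := by
  unfold xi
  have h1 := Complex.abs_re_le_norm (τ z)
  have h2 := Complex.abs_im_le_norm (τ z)
  calc _ ≤ |(τ z).re| + |(τ z).im| := abs_add_le _ _
    _ ≤ _ := by linarith

theorem norm_le_of_xi (τ : L →+* ℂ) (z : L) (r : ℝ) (h1 : |xi τ z| ≤ r)
    (h2 : |xi (ComplexEmbedding.conjugate τ) z| ≤ r) : ‖τ z‖ ≤ r := by
  have hr : 0 ≤ r := (abs_nonneg _).trans h1
  rw [xi_conj] at h2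
  unfold xi at h1
  rw [abs_le] at h1 h2
  have h3 : ‖τ z‖ ^ 2 ≤ r ^ 2 := by
    rw [← Complex.normSq_eq_norm_sq, Complex.normSq_apply]
    nlinarith [h1.1, h1.2, h2.1, h2.2]
  exact abs_le_of_sq_le_sq' h3 hr |>.2

/-- A finite set of reals in `[-R, R]` with gaps at least `1` has at most `2R + 1` elements. -/
theorem card_le_of_sep {α : Type*} (S : Finset α) (r : α → ℝ) (R : ℝ) (hR0 : 0 ≤ R)
    (hR : ∀ z ∈ S, |r z| ≤ R) (hsep : ∀ z ∈ S, ∀ z' ∈ S, z ≠ z' → 1 ≤ |r z - r z'|) :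
    (S.card : ℝ) ≤ 2 * R + 1 := by
  have hinj : Set.InjOn (fun z => ⌊r z + R⌋₊) (S : Set α) := by
    intro z hz z' hz' h
    by_contra hne
    have h1 := hsep z hz z' hz' hne
    have a1 := (abs_le.1 (hR z hz)).1
    have a2 := (abs_le.1 (hR z' hz')).1
    have b1 := Nat.floor_le (show 0 ≤ r z + R by linarith)
    have b2 := Nat.lt_floor_add_one (r z + R)
    have b3 := Nat.floor_le (show 0 ≤ r z' + R by linarith)
    have b4 := Nat.lt_floor_add_one (r z' + R)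
    have h' : ⌊r z + R⌋₊ = ⌊r z' + R⌋₊ := h
    rw [h'] at b1 b2
    have h2 : |r z - r z'| < 1 := by
      rw [abs_lt]; constructor <;> linarith
    linarith
  have hsub : S.image (fun z => ⌊r z + R⌋₊) ⊆ Finset.range (⌊2 * R⌋₊ + 1) := by
    intro n hn
    rw [Finset.mem_image] at hn
    obtain ⟨z, hz, rfl⟩ := hn
    rw [Finset.mem_range, Nat.lt_succ_iff]
    apply Nat.floor_mono
    have := (abs_le.1 (hR z hz)).2
    linarith
  have h1 : S.card ≤ ⌊2 * R⌋₊ + 1 := by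
    rw [← Finset.card_image_of_injOn hinj]
    exact (Finset.card_le_card hsub).trans (by simp)
  calc (S.card : ℝ) ≤ ((⌊2 * R⌋₊ + 1 : ℕ) : ℝ) := by exact_mod_cast h1
    _ = (⌊2 * R⌋₊ : ℝ) + 1 := by push_cast; ring
    _ ≤ 2 * R + 1 := by
      have := Nat.floor_le (show 0 ≤ 2 * R by linarith)
      linarith

theorem prod_norm_smul {k : ℕ} (hk : Module.finrank ℚ L = k) (q : ℚ) (w : L) :
    ∏ τ : L →+* ℂ, ‖τ (algebraMap ℚ L q * w)‖ = |(q : ℝ)| ^ k * ∏ τ : L →+* ℂ, ‖τ w‖ := by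
  have h1 : ∀ τ : L →+* ℂ, ‖τ (algebraMap ℚ L q * w)‖ = |(q : ℝ)| * ‖τ w‖ := by
    intro τ
    rw [map_mul, norm_mul]
    congr 1
    have e : τ (algebraMap ℚ L q) = (((q : ℚ) : ℝ) : ℂ) := by simp
    rw [e, Complex.norm_real, Real.norm_eq_abs]
  rw [Finset.prod_congr rfl fun τ _ => h1 τ, Finset.prod_mul_distrib, Finset.prod_const,
    Finset.card_univ, NumberField.Embeddings.card, hk]

/-- Points of a cell. -/
theorem cell {k : ℕ} (hk1 : 1 ≤ k) (hk : Module.finrank ℚ L = k) (J : Ideal (𝓞 L)) (hJ : J ≠ ⊥)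
    (B : Finset L) (δ : (L →+* ℂ) → ℝ) (hB : ∀ z ∈ B, InInv J z)
    (hd : ∀ z ∈ B, ∀ z' ∈ B, ∀ τ, ‖τ (z - z')‖ ≤ δ τ)
    (hpar : ∀ w w' : L, w ≠ 0 → InInv J w → InInv J w' →
      (∀ τ : L →+* ℂ, ‖τ w‖ ≤ δ τ ∧ ‖τ w'‖ ≤ δ τ) → ∃ q : ℚ, w' = algebraMap ℚ L q * w)
    (R : ℝ) (hR : 0 ≤ R) (hRk : (∏ τ, δ τ) * J.absNorm ≤ R ^ k) : (B.card : ℝ) ≤ 2 * R + 1 := by
  by_cases hB1 : B.card ≤ 1
  · have : (B.card : ℝ) ≤ 1 := by exact_mod_cast hB1
    linarith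
  · obtain ⟨z0, hz0, z1, hz1, hne⟩ := Finset.one_lt_card.1 (not_le.1 hB1)
    set w1 := z1 - z0 with hw1
    have hw10 : w1 ≠ 0 := sub_ne_zero.2 hne.symm
    have hIw1 : InInv J w1 := (hB _ hz1).sub (hB _ hz0)
    have hρ : ∀ z : L, ∃ q : ℚ, z ∈ B → z - z0 = algebraMap ℚ L q * w1 := by
      intro z
      by_cases hz : z ∈ B
      · obtain ⟨q, hq⟩ := hpar w1 (z - z0) hw10 hIw1 ((hB _ hz).sub (hB _ hz0))
          (fun τ => ⟨hd _ hz1 _ hz0 τ, hd _ hz _ hz0 τ⟩)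
        exact ⟨q, fun _ => hq⟩
      · exact ⟨0, fun h => absurd h hz⟩
    choose ρ hρ using hρ
    have hP1 := one_le_norm J hJ w1 hw10 hIw1
    set P1 := (∏ τ : L →+* ℂ, ‖τ w1‖) * J.absNorm with hP1d
    have hk0 : k ≠ 0 := by omega
    obtain ⟨G, hG0, hGk⟩ : ∃ G : ℝ, 0 ≤ G ∧ G ^ k = P1 :=
      ⟨P1 ^ ((k : ℝ)⁻¹), by positivity, Real.rpow_inv_natCast_pow (by linarith) hk0⟩
    have key : ∀ z ∈ B, ∀ z' ∈ B, |(ρ z : ℝ) * G - (ρ z' : ℝ) * G| ^ k =
        (∏ τ : L →+* ℂ, ‖τ (z - z')‖) * J.absNorm := by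
      intro z hz z' hz'
      have e1 : z - z' = algebraMap ℚ L (ρ z - ρ z') * w1 := by
        rw [map_sub, sub_mul, ← hρ z hz, ← hρ z' hz']; ring
      rw [e1, prod_norm_smul hk, ← sub_mul, abs_mul, mul_pow, abs_of_nonneg hG0, hGk, hP1d]
      push_cast
      ring
    refine card_le_of_sep B (fun z => (ρ z : ℝ) * G) R hR ?_ ?_
    · intro z hz
      have h1 := key z hz z0 hz0
      have h0 : ρ z0 = 0 := by
        have := hρ z0 hz0
        rw [sub_self] at this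
        have h2 : algebraMap ℚ L (ρ z0) = 0 := by
          rcases mul_eq_zero.1 this.symm with h | h
          · exact h
          · exact absurd h hw10
        exact (map_eq_zero _).1 h2
      rw [h0, Rat.cast_zero, zero_mul, sub_zero] at h1
      have h2 : |(ρ z : ℝ) * G| ^ k ≤ R ^ k := by
        rw [h1]
        refine le_trans ?_ hRk
        refine mul_le_mul_of_nonneg_right ?_ (Nat.cast_nonneg _)
        exact Finset.prod_le_prod (fun τ _ => norm_nonneg _) (fun τ _ => hd z hz z0 hz0 τ)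
      exact (pow_le_pow_iff_left₀ (abs_nonneg _) hR hk0).1 h2
    · intro z hz z' hz' hzz
      have h1 := key z hz z' hz'
      have h2 := one_le_norm J hJ (z - z') (sub_ne_zero.2 hzz) ((hB _ hz).sub (hB _ hz'))
      rw [← h1] at h2
      by_contra hlt
      push Not at hlt
      have := pow_lt_one₀ (abs_nonneg _) hlt hk0
      linarith

/-- Points in a box. -/
theorem box {k : ℕ} (hk1 : 1 ≤ k) (hk : Module.finrank ℚ L = k) (J : Ideal (𝓞 L)) (hJ : J ≠ ⊥)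
    (B : Finset L) (t : (L →+* ℂ) → ℝ) (ht : ∀ τ, 0 < t τ)
    (htc : ∀ τ, t (ComplexEmbedding.conjugate τ) = t τ) (hB : ∀ z ∈ B, InInv J z)
    (hBt : ∀ z ∈ B, ∀ τ, ‖τ z‖ ≤ t τ) (a : ℝ) (ha : 0 ≤ a) (hak : (∏ τ, t τ) * J.absNorm ≤ a ^ k)
    (s : ℕ) (hs : 1 ≤ s)
    (hpar : ∀ w w' : L, w ≠ 0 → InInv J w → InInv J w' →
      (∀ τ : L →+* ℂ, ‖τ w‖ ≤ 4 / s * t τ ∧ ‖τ w'‖ ≤ 4 / s * t τ) →
        ∃ q : ℚ, w' = algebraMap ℚ L q * w) :
    (B.card : ℝ) ≤ (8 * a / s + 1) * (3 * s) ^ k := by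
  classical
  have hs0 : (0 : ℝ) < s := by exact_mod_cast hs
  let f : L → (L →+* ℂ) → ℤ := fun z τ => ⌊xi τ z * s / (4 * t τ)⌋
  have himg : B.image f ⊆ Fintype.piFinset fun _ => Finset.Icc (-(s : ℤ)) s := by
    intro g hg
    rw [Finset.mem_image] at hg
    obtain ⟨z, hz, rfl⟩ := hg
    rw [Fintype.mem_piFinset]
    intro τ
    rw [Finset.mem_Icc]
    have h1 : |xi τ z| ≤ 2 * t τ := (abs_xi_le τ z).trans (by linarith [hBt z hz τ])
    have h2 : |xi τ z * s / (4 * t τ)| ≤ s := by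
      rw [abs_div, abs_mul, abs_of_pos hs0, abs_of_pos (show 0 < 4 * t τ by linarith [ht τ]),
        div_le_iff₀ (by linarith [ht τ])]
      nlinarith [ht τ]
    rw [abs_le] at h2
    constructor
    · show -(s : ℤ) ≤ ⌊xi τ z * s / (4 * t τ)⌋
      rw [Int.le_floor]
      push_cast
      exact h2.1
    · show ⌊xi τ z * s / (4 * t τ)⌋ ≤ (s : ℤ)
      have h3 := Int.floor_le (xi τ z * s / (4 * t τ))
      have h4 : ((⌊xi τ z * s / (4 * t τ)⌋ : ℤ) : ℝ) ≤ ((s : ℤ) : ℝ) := by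
        push_cast
        linarith [h2.2]
      exact_mod_cast h4
  have hcard : ((B.image f).card : ℝ) ≤ (3 * s) ^ k := by
    have h1 : (B.image f).card ≤ (2 * s + 1) ^ k := by
      refine (Finset.card_le_card himg).trans ?_
      rw [Fintype.card_piFinset, Finset.prod_const, Finset.card_univ, NumberField.Embeddings.card,
        hk, Int.card_Icc]
      apply le_of_eq
      congr 1
      omega
    calc ((B.image f).card : ℝ) ≤ (((2 * s + 1) ^ k : ℕ) : ℝ) := by exact_mod_cast h1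
      _ = (2 * (s : ℝ) + 1) ^ k := by push_cast; ring
      _ ≤ (3 * s) ^ k := by
        apply pow_le_pow_left₀ (by positivity)
        have : (1 : ℝ) ≤ s := by exact_mod_cast hs
        linarith
  have hfib : ∀ g ∈ B.image f, ((B.filter fun z => f z = g).card : ℝ) ≤ 8 * a / s + 1 := by
    intro g _
    have := cell hk1 hk J hJ (B.filter fun z => f z = g) (fun τ => 4 / s * t τ)
      (fun z hz => hB z (Finset.mem_filter.1 hz).1) ?_ hpar (4 * a / s) (by positivity) ?_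
    · refine this.trans (le_of_eq (by ring))
    · intro z hz z' hz' τ
      rw [Finset.mem_filter] at hz hz'
      have hcell : ∀ τ : L →+* ℂ, |xi τ (z - z')| ≤ 4 / s * t τ := by
        intro τ
        have e : ⌊xi τ z * s / (4 * t τ)⌋ = ⌊xi τ z' * s / (4 * t τ)⌋ := by
          have h1 := congrFun (hz.2.trans hz'.2.symm) τ
          exact h1
        have h1 := Int.abs_sub_lt_one_of_floor_eq_floor e
        rw [← sub_div, ← sub_mul, abs_div, abs_mul, abs_of_pos hs0,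
          abs_of_pos (show 0 < 4 * t τ by linarith [ht τ]),
          div_lt_one (by linarith [ht τ])] at h1
        rw [xi_sub, div_mul_eq_mul_div, le_div_iff₀ hs0]
        exact h1.le
      refine norm_le_of_xi τ _ _ (hcell τ) ?_
      have h2 := hcell (ComplexEmbedding.conjugate τ)
      rwa [htc] at h2
    · rw [Finset.prod_mul_distrib, Finset.prod_const, Finset.card_univ,
        NumberField.Embeddings.card, hk]
      calc (4 / (s : ℝ)) ^ k * (∏ τ, t τ) * J.absNorm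
          = (4 / (s : ℝ)) ^ k * ((∏ τ, t τ) * J.absNorm) := by ring
        _ ≤ (4 / (s : ℝ)) ^ k * a ^ k := by
          apply mul_le_mul_of_nonneg_left hak (by positivity)
        _ = (4 * a / s) ^ k := by rw [← mul_pow]; congr 1; ring
  have hsum : (B.card : ℝ) = ∑ g ∈ B.image f, ((B.filter fun z => f z = g).card : ℝ) := by
    rw [Finset.card_eq_sum_card_image f B]
    push_cast
    rfl
  rw [hsum]
  calc ∑ g ∈ B.image f, ((B.filter fun z => f z = g).card : ℝ)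
      ≤ ∑ _g ∈ B.image f, (8 * a / s + 1) := Finset.sum_le_sum hfib
    _ = (B.image f).card * (8 * a / s + 1) := by rw [Finset.sum_const, nsmul_eq_mul]
    _ ≤ (3 * s) ^ k * (8 * a / s + 1) := by
      apply mul_le_mul_of_nonneg_right hcard (by positivity)
    _ = _ := by ring

/-- Optimising the number of cells. -/
theorem optim (k : ℕ) (hk : 2 ≤ k) (c : ℝ) (hc : 0 < c) : ∃ C : ℝ, 0 < C ∧
    ∀ a u : ℝ, 1 ≤ a → 0 < u → u ≤ 1 → ∃ s : ℕ, 1 ≤ s ∧ u ^ k * ((4 / (s : ℝ)) ^ k * a ^ k) < c ∧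
      (8 * a / s + 1) * (3 * s) ^ k ≤ C * (a + a ^ k * u ^ (k - 1)) := by
  obtain ⟨j, rfl⟩ : ∃ j, k = j + 1 := ⟨k - 1, by omega⟩
  have hk0 : j + 1 ≠ 0 := by omega
  -- alpha with alpha ^ k large
  obtain ⟨α, hα1, hαk⟩ : ∃ α : ℝ, 1 ≤ α ∧ 4 ^ (j + 1) ≤ c * α ^ (j + 1) := by
    obtain ⟨n, hn⟩ := exists_nat_gt (4 ^ (j + 1) / c)
    refine ⟨n + 1, by linarith [(Nat.cast_nonneg n : (0 : ℝ) ≤ n)], ?_⟩
    have h1 : (1 : ℝ) ≤ n + 1 := by linarith [(Nat.cast_nonneg n : (0 : ℝ) ≤ n)]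
    have h2 : (n : ℝ) + 1 ≤ (n + 1) ^ (j + 1) := by
      calc (n : ℝ) + 1 = (n + 1) ^ 1 := by ring
        _ ≤ _ := pow_le_pow_right₀ h1 (by omega)
    rw [div_lt_iff₀ hc] at hn
    nlinarith
  refine ⟨3 ^ (j + 1) * (8 + 2 * α) * (2 * α) ^ j * 2, by positivity, ?_⟩
  intro a u ha hu hu1
  set y := α * a * u with hy
  have hy0 : 0 < y := by positivity
  refine ⟨⌊y⌋₊ + 1, by omega, ?_, ?_⟩
  · have h1 : y < ((⌊y⌋₊ + 1 : ℕ) : ℝ) := by push_cast; exact Nat.lt_floor_add_one y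
    set s : ℝ := ((⌊y⌋₊ + 1 : ℕ) : ℝ) with hs
    have hs0 : 0 < s := hy0.trans h1
    have h2 : y ^ (j + 1) < s ^ (j + 1) := pow_lt_pow_left₀ h1 hy0.le hk0
    have e : u ^ (j + 1) * ((4 / s) ^ (j + 1) * a ^ (j + 1)) =
        4 ^ (j + 1) * (a * u) ^ (j + 1) / s ^ (j + 1) := by
      rw [div_pow, mul_pow]; ring
    rw [e, div_lt_iff₀ (by positivity)]
    calc 4 ^ (j + 1) * (a * u) ^ (j + 1) ≤ c * α ^ (j + 1) * (a * u) ^ (j + 1) := by
          apply mul_le_mul_of_nonneg_right hαk (by positivity)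
      _ = c * y ^ (j + 1) := by rw [hy]; ring
      _ < c * s ^ (j + 1) := by
        apply mul_lt_mul_of_pos_left h2 hc
  · have h1 : ((⌊y⌋₊ + 1 : ℕ) : ℝ) ≤ y + 1 := by push_cast; linarith [Nat.floor_le hy0.le]
    have h1' : (1 : ℝ) ≤ ((⌊y⌋₊ + 1 : ℕ) : ℝ) := by push_cast; linarith [(Nat.cast_nonneg ⌊y⌋₊ : (0 : ℝ) ≤ _)]
    set s : ℝ := ((⌊y⌋₊ + 1 : ℕ) : ℝ) with hs
    have hs0 : 0 < s := by linarith
    have hαa : 1 ≤ α * a := by nlinarith
    have hs2 : s ≤ 2 * (α * a) := by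
      have : y ≤ α * a := by rw [hy]; nlinarith
      linarith
    -- s ^ j <= (2 alpha)^j * 2 * (1 + (a u)^j)
    have hsj : s ^ j ≤ (2 * α) ^ j * 2 * (1 + (a * u) ^ j) := by
      have hau : 0 < a * u := by positivity
      have h3 : s ≤ 2 * α * max 1 (a * u) := by
        have h4 : (1 : ℝ) ≤ max 1 (a * u) := le_max_left _ _
        have h5 : a * u ≤ max 1 (a * u) := le_max_right _ _
        have h6 : y ≤ α * max 1 (a * u) := by rw [hy, mul_assoc]; nlinarith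
        nlinarith
      calc s ^ j ≤ (2 * α * max 1 (a * u)) ^ j := pow_le_pow_left₀ hs0.le h3 j
        _ = (2 * α) ^ j * (max 1 (a * u)) ^ j := by rw [mul_pow]
        _ ≤ (2 * α) ^ j * (2 * (1 + (a * u) ^ j)) := by
          apply mul_le_mul_of_nonneg_left _ (by positivity)
          have hp : 0 < (a * u) ^ j := by positivity
          rcases max_cases 1 (a * u) with ⟨h, _⟩ | ⟨h, _⟩
          · rw [h, one_pow]; linarith
          · rw [h]; linarith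
        _ = _ := by ring
    have e1 : (8 * a / s + 1) * (3 * s) ^ (j + 1) = 3 ^ (j + 1) * (8 * a + s) * s ^ j := by
      rw [mul_pow]
      field_simp
      ring
    rw [e1]
    calc 3 ^ (j + 1) * (8 * a + s) * s ^ j
        ≤ 3 ^ (j + 1) * (8 * a + 2 * (α * a)) * ((2 * α) ^ j * 2 * (1 + (a * u) ^ j)) := by
          gcongr
      _ = 3 ^ (j + 1) * (8 + 2 * α) * (2 * α) ^ j * 2 * (a + a ^ (j + 1) * u ^ (j + 1 - 1)) := by
          rw [Nat.add_sub_cancel]; ring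

/-- The number of dyadic scales. -/
theorem scales (k : ℕ) (hk : 1 ≤ k) (ε : ℝ) (hε : 0 < ε) : ∃ C : ℝ, 0 < C ∧ ∀ T : ℝ, 1 ≤ T →
    ((⌊Real.logb 2 (2 * T)⌋₊ : ℝ) + 1) ^ k ≤ C * T ^ ε := by
  have hk0 : (0 : ℝ) < k := by exact_mod_cast hk
  set δ := ε / k with hδ
  have hδ0 : 0 < δ := by positivity
  have hlog2 : 0 < Real.log 2 := Real.log_pos (by norm_num)
  refine ⟨(2 + 1 / (δ * Real.log 2)) ^ k, by positivity, ?_⟩
  intro T hT
  have hT0 : 0 < T := by linarith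
  have h1 : (⌊Real.logb 2 (2 * T)⌋₊ : ℝ) ≤ Real.logb 2 (2 * T) := by
    apply Nat.floor_le
    apply Real.logb_nonneg (by norm_num)
    linarith
  have h2 : Real.logb 2 (2 * T) = 1 + Real.log T / Real.log 2 := by
    rw [Real.logb, Real.log_mul (by norm_num) (by positivity)]
    field_simp
  have h3 : Real.log T ≤ T ^ δ / δ := Real.log_le_rpow_div hT0.le hδ0
  have h4 : 1 ≤ T ^ δ := Real.one_le_rpow hT hδ0.le
  have h5 : (⌊Real.logb 2 (2 * T)⌋₊ : ℝ) + 1 ≤ (2 + 1 / (δ * Real.log 2)) * T ^ δ := by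
    have h6 : Real.log T / Real.log 2 ≤ 1 / (δ * Real.log 2) * T ^ δ := by
      rw [div_le_iff₀ hlog2]
      calc Real.log T ≤ T ^ δ / δ := h3
        _ = _ := by field_simp
    nlinarith
  calc ((⌊Real.logb 2 (2 * T)⌋₊ : ℝ) + 1) ^ k ≤ ((2 + 1 / (δ * Real.log 2)) * T ^ δ) ^ k :=
        pow_le_pow_left₀ (by positivity) h5 k
    _ = (2 + 1 / (δ * Real.log 2)) ^ k * (T ^ δ) ^ k := by rw [mul_pow]
    _ = _ := by
      congr 1
      rw [← Real.rpow_natCast, ← Real.rpow_mul hT0.le]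
      congr 1
      rw [hδ]; field_simp

theorem dyadic : ∃ jj : ℝ → ℕ, ∀ x : ℝ, 1 ≤ x → x ≤ 2 ^ jj x ∧ (2 : ℝ) ^ jj x ≤ 2 * x := by
  have h : ∀ x : ℝ, ∃ n : ℕ, 1 ≤ x → x ≤ 2 ^ n ∧ (2 : ℝ) ^ n ≤ 2 * x := by
    intro x
    by_cases hx : 1 ≤ x
    · obtain ⟨n, h1, h2⟩ := exists_nat_pow_near hx (by norm_num : (1 : ℝ) < 2)
      refine ⟨n + 1, fun _ => ⟨h2.le, ?_⟩⟩
      rw [pow_succ]; linarith
    · exact ⟨0, fun h => absurd h hx⟩
  choose jj hjj using h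
  exact ⟨jj, hjj⟩

/-- The count, given the determinant inequality with constant `c`. -/
theorem main (k : ℕ) (hk : 2 ≤ k) (ε : ℝ) (hε : 0 < ε) (c : ℝ) (hc : 0 < c) : ∃ C : ℝ, 0 < C ∧
    ∀ (L : Type) [Field L] [NumberField L], Module.finrank ℚ L = k →
      ∀ (J : Ideal (𝓞 L)), J ≠ ⊥ →
      (∀ (t : (L →+* ℂ) → ℝ) (z z' : L), z ≠ 0 →
        (∀ y ∈ J, ∃ x : 𝓞 L, (y : L) * z = x) → (∀ y ∈ J, ∃ x : 𝓞 L, (y : L) * z' = x) →
        (∀ q : ℚ, z' ≠ algebraMap ℚ L q * z) →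
        (∀ τ : L →+* ℂ, ‖τ z‖ ≤ t τ ∧ ‖τ z'‖ ≤ t τ) →
        c * |(discr L : ℝ)| ^ (1 / (2 * ((k : ℝ) - 1))) ≤ (∏ τ, t τ) * J.absNorm) →
      ∀ T : ℝ, 1 ≤ T →
      ∀ S : Finset L, (∀ z ∈ S, (∀ y ∈ J, ∃ x : 𝓞 L, (y : L) * z = x) ∧
          (∏ τ : L →+* ℂ, max 1 ‖τ z‖) * J.absNorm ≤ T) →
        (S.card : ℝ) ≤ C * T ^ ε *
          (T ^ (1 / (k : ℝ)) + T * |(discr L : ℝ)| ^ (-(1 / (2 * (k : ℝ))))) := by
  classical
  obtain ⟨C1, hC1, h1⟩ := optim k hk c hc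
  obtain ⟨C2, hC2, h2⟩ := scales k (by omega) ε hε
  obtain ⟨jj, hjj⟩ := dyadic
  refine ⟨C2 * (C1 * 2 ^ k), by positivity, ?_⟩
  intro L _ _ hL J hJ hdet T hT S hS
  have hk0 : k ≠ 0 := by omega
  have hkR : (0 : ℝ) < k := by exact_mod_cast Nat.pos_of_ne_zero hk0
  have hk1R : (0 : ℝ) < (k : ℝ) - 1 := by
    have : (2 : ℝ) ≤ k := by exact_mod_cast hk
    linarith
  have hT0 : 0 < T := by linarith
  have hD : (1 : ℝ) ≤ |(discr L : ℝ)| := by
    have h3 : (discr L) ≠ 0 := discr_ne_zero L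
    have h4 := Int.one_le_abs h3
    exact_mod_cast h4
  have hD0 : 0 < |(discr L : ℝ)| := by linarith
  set D := |(discr L : ℝ)| with hDd
  have hNJ : (1 : ℝ) ≤ J.absNorm := by
    have h3 : J.absNorm ≠ 0 := by rw [Ne, Ideal.absNorm_eq_zero_iff]; exact hJ
    exact_mod_cast Nat.one_le_iff_ne_zero.2 h3
  set u := D ^ (-(1 / (2 * (k : ℝ) * ((k : ℝ) - 1)))) with hu
  have hu0 : 0 < u := Real.rpow_pos_of_pos hD0 _
  have hu1 : u ≤ 1 := Real.rpow_le_one_of_one_le_of_nonpos hD (by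
    rw [neg_nonpos]; positivity)
  have huk : u ^ k = D ^ (-(1 / (2 * ((k : ℝ) - 1)))) := by
    rw [hu, ← Real.rpow_natCast, ← Real.rpow_mul hD0.le]
    congr 1
    field_simp
  have huk1 : u ^ (k - 1) = D ^ (-(1 / (2 * (k : ℝ)))) := by
    rw [hu, ← Real.rpow_natCast, ← Real.rpow_mul hD0.le]
    congr 1
    rw [Nat.cast_sub (by omega), Nat.cast_one]
    field_simp
  set a := 2 * T ^ (1 / (k : ℝ)) with ha
  have hTk1 : 1 ≤ T ^ (1 / (k : ℝ)) := Real.one_le_rpow hT (by positivity)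
  have ha1 : 1 ≤ a := by linarith
  have hak : a ^ k = 2 ^ k * T := by
    rw [ha, mul_pow, ← Real.rpow_natCast (T ^ (1 / (k : ℝ))), ← Real.rpow_mul hT0.le]
    rw [one_div, inv_mul_cancel₀ (by positivity), Real.rpow_one]
  obtain ⟨s, hs1, hsc, hsb⟩ := h1 a u ha1 hu0 hu1
  have hbound : (8 * a / s + 1) * (3 * s) ^ k ≤
      C1 * 2 ^ k * (T ^ (1 / (k : ℝ)) + T * D ^ (-(1 / (2 * (k : ℝ))))) := by
    refine hsb.trans ?_
    rw [hak, huk1, ha]
    have h3 : (2 : ℝ) ≤ 2 ^ k := by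
      calc (2 : ℝ) = 2 ^ 1 := by ring
        _ ≤ 2 ^ k := pow_le_pow_right₀ (by norm_num) (by omega)
    have h4 : 2 * T ^ (1 / (k : ℝ)) ≤ 2 ^ k * T ^ (1 / (k : ℝ)) :=
      mul_le_mul_of_nonneg_right h3 (by positivity)
    calc C1 * (2 * T ^ (1 / (k : ℝ)) + 2 ^ k * T * D ^ (-(1 / (2 * (k : ℝ)))))
        ≤ C1 * (2 ^ k * T ^ (1 / (k : ℝ)) + 2 ^ k * T * D ^ (-(1 / (2 * (k : ℝ))))) := by
          apply mul_le_mul_of_nonneg_left _ hC1.le
          linarith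
      _ = _ := by ring
  let f : L → (L →+* ℂ) → ℕ := fun z τ => jj (max 1 ‖τ z‖)
  have hf : ∀ (z : L) (τ : L →+* ℂ), max 1 ‖τ z‖ ≤ 2 ^ f z τ ∧ (2 : ℝ) ^ f z τ ≤ 2 * max 1 ‖τ z‖ :=
    fun z τ => hjj _ (le_max_left _ _)
  have hfc : ∀ (z : L) (τ : L →+* ℂ), f z (ComplexEmbedding.conjugate τ) = f z τ := by
    intro z τ
    show jj (max 1 ‖ComplexEmbedding.conjugate τ z‖) = jj (max 1 ‖τ z‖)
    congr 2
    rw [ComplexEmbedding.conjugate_coe_eq]
    exact RCLike.norm_conj _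
  have hprodT : ∀ z ∈ S, ∏ τ : L →+* ℂ, max 1 ‖τ z‖ ≤ T := by
    intro z hz
    have h3 := (hS z hz).2
    have h4 : 0 ≤ ∏ τ : L →+* ℂ, max 1 ‖τ z‖ := Finset.prod_nonneg fun τ _ => by positivity
    nlinarith
  have hfle : ∀ z ∈ S, ∀ τ, f z τ ≤ ⌊Real.logb 2 (2 * T)⌋₊ := by
    intro z hz τ
    have h3 : max 1 ‖τ z‖ ≤ ∏ τ' : L →+* ℂ, max 1 ‖τ' z‖ := by
      calc max 1 ‖τ z‖ = ∏ τ' : L →+* ℂ, if τ' = τ then max 1 ‖τ' z‖ else 1 := by
            rw [Finset.prod_ite_eq' Finset.univ τ (fun τ' => max 1 ‖τ' z‖)]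
            simp
        _ ≤ _ := by
            apply Finset.prod_le_prod
            · intro τ' _; split_ifs <;> positivity
            · intro τ' _
              split_ifs
              · exact le_rfl
              · exact le_max_left _ _
    apply Nat.le_floor
    rw [Real.le_logb_iff_rpow_le (by norm_num) (by positivity), Real.rpow_natCast]
    calc (2 : ℝ) ^ f z τ ≤ 2 * max 1 ‖τ z‖ := (hf z τ).2
      _ ≤ 2 * T := by linarith [hprodT z hz]
  have himg : ((S.image f).card : ℝ) ≤ C2 * T ^ ε := by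
    have hsub : S.image f ⊆ Fintype.piFinset fun _ => Finset.range (⌊Real.logb 2 (2 * T)⌋₊ + 1) := by
      intro g hg
      rw [Finset.mem_image] at hg
      obtain ⟨z, hz, rfl⟩ := hg
      rw [Fintype.mem_piFinset]
      intro τ
      rw [Finset.mem_range, Nat.lt_succ_iff]
      exact hfle z hz τ
    have h3 : (S.image f).card ≤ (⌊Real.logb 2 (2 * T)⌋₊ + 1) ^ k := by
      refine (Finset.card_le_card hsub).trans (le_of_eq ?_)
      rw [Fintype.card_piFinset, Finset.prod_const, Finset.card_univ, NumberField.Embeddings.card,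
        hL, Finset.card_range]
    calc ((S.image f).card : ℝ) ≤ (((⌊Real.logb 2 (2 * T)⌋₊ + 1) ^ k : ℕ) : ℝ) := by
          exact_mod_cast h3
      _ = ((⌊Real.logb 2 (2 * T)⌋₊ : ℝ) + 1) ^ k := by push_cast; ring
      _ ≤ _ := h2 T hT
  have hfib : ∀ g ∈ S.image f, ((S.filter fun z => f z = g).card : ℝ) ≤
      C1 * 2 ^ k * (T ^ (1 / (k : ℝ)) + T * D ^ (-(1 / (2 * (k : ℝ))))) := by
    intro g hg
    rw [Finset.mem_image] at hg
    obtain ⟨z0, hz0, rfl⟩ := hg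
    have hprod : (∏ τ : L →+* ℂ, (2 : ℝ) ^ f z0 τ) * J.absNorm ≤ a ^ k := by
      rw [hak]
      calc (∏ τ : L →+* ℂ, (2 : ℝ) ^ f z0 τ) * J.absNorm
          ≤ (∏ τ : L →+* ℂ, 2 * max 1 ‖τ z0‖) * J.absNorm := by
            apply mul_le_mul_of_nonneg_right _ (Nat.cast_nonneg _)
            exact Finset.prod_le_prod (fun τ _ => by positivity) fun τ _ => (hf z0 τ).2
        _ = 2 ^ k * ((∏ τ : L →+* ℂ, max 1 ‖τ z0‖) * J.absNorm) := by
            rw [Finset.prod_mul_distrib, Finset.prod_const, Finset.card_univ,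
              NumberField.Embeddings.card, hL]
            ring
        _ ≤ 2 ^ k * T := by
            apply mul_le_mul_of_nonneg_left (hS z0 hz0).2 (by positivity)
    refine le_trans ?_ hbound
    refine box (by omega) hL J hJ (S.filter fun z => f z = f z0) (fun τ => (2 : ℝ) ^ f z0 τ)
      (fun τ => by positivity) (fun τ => by rw [hfc]) (fun z hz => (hS z (Finset.mem_filter.1 hz).1).1)
      ?_ a (by linarith) hprod s hs1 ?_
    · intro z hz τ
      rw [Finset.mem_filter] at hz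
      have h3 := (hf z τ).1
      rw [hz.2] at h3
      exact (le_max_right _ _).trans h3
    · intro w w' hw hIw hIw' hww
      by_contra hcon
      push Not at hcon
      have h3 := hdet (fun τ => 4 / s * (2 : ℝ) ^ f z0 τ) w w' hw hIw hIw' hcon hww
      have h4 : (∏ τ : L →+* ℂ, 4 / (s : ℝ) * (2 : ℝ) ^ f z0 τ) * J.absNorm ≤
          (4 / (s : ℝ)) ^ k * a ^ k := by
        rw [Finset.prod_mul_distrib, Finset.prod_const, Finset.card_univ,
          NumberField.Embeddings.card, hL, mul_assoc]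
        exact mul_le_mul_of_nonneg_left hprod (by positivity)
      have h5 := h3.trans h4
      have h6 : u ^ k * (c * D ^ (1 / (2 * ((k : ℝ) - 1)))) = c := by
        rw [huk, Real.rpow_neg hD0.le]
        have : D ^ (1 / (2 * ((k : ℝ) - 1))) ≠ 0 := (Real.rpow_pos_of_pos hD0 _).ne'
        field_simp
      have h7 : c ≤ u ^ k * ((4 / (s : ℝ)) ^ k * a ^ k) := by
        rw [← h6]
        exact mul_le_mul_of_nonneg_left h5 (by positivity)
      linarith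
  have hsum : (S.card : ℝ) = ∑ g ∈ S.image f, ((S.filter fun z => f z = g).card : ℝ) := by
    rw [Finset.card_eq_sum_card_image f S]
    push_cast
    rfl
  rw [hsum]
  have hDp : 0 < D ^ (-(1 / (2 * (k : ℝ)))) := Real.rpow_pos_of_pos hD0 _
  calc ∑ g ∈ S.image f, ((S.filter fun z => f z = g).card : ℝ)
      ≤ ∑ _g ∈ S.image f, C1 * 2 ^ k * (T ^ (1 / (k : ℝ)) + T * D ^ (-(1 / (2 * (k : ℝ))))) :=
        Finset.sum_le_sum hfib
    _ = (S.image f).card * (C1 * 2 ^ k * (T ^ (1 / (k : ℝ)) + T * D ^ (-(1 / (2 * (k : ℝ)))))) := by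
        rw [Finset.sum_const, nsmul_eq_mul]
    _ ≤ C2 * T ^ ε * (C1 * 2 ^ k * (T ^ (1 / (k : ℝ)) + T * D ^ (-(1 / (2 * (k : ℝ)))))) := by
        apply mul_le_mul_of_nonneg_right himg (by positivity)
    _ = _ := by ring

end G7

/-- VW-G7: counting elements of bounded height in `J⁻¹`. -/
theorem card_elements_le (k : ℕ) (hk : 2 ≤ k) (ε : ℝ) (hε : 0 < ε) : ∃ C : ℝ, 0 < C ∧
    ∀ (L : Type) [Field L] [NumberField L], Module.finrank ℚ L = k → IsPrim L →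
      ∀ (J : Ideal (𝓞 L)), J ≠ ⊥ → ∀ T : ℝ, 1 ≤ T →
      ∀ S : Finset L, (∀ z ∈ S, (∀ y ∈ J, ∃ x : 𝓞 L, (y : L) * z = x) ∧
          (∏ τ : L →+* ℂ, max 1 ‖τ z‖) * J.absNorm ≤ T) →
        (S.card : ℝ) ≤ C * T ^ ε *
          (T ^ (1 / (k : ℝ)) + T * |(discr L : ℝ)| ^ (-(1 / (2 * (k : ℝ))))) := by
  obtain ⟨c, hc, h⟩ := prod_large k hk
  obtain ⟨C, hC, h'⟩ := G7.main k hk ε hε c hc
  exact ⟨C, hC, fun L _ _ hL hP J hJ => h' L hL J hJ (h L hL hP J hJ)⟩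

end Pool.Agent.Helper12.VW
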